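import Pool.Agent.H20.MT.Stmts

/-!
# Project MTA, module LS: the large sieve for primitive characters
-/

set_option autoImplicit false

open Finset

theorem MTA.LS (h1 : MTA.S_LSA) (h2 : MTA.S_GAU) : MTA.S_LS := by
  obtain ⟨C, hC, h⟩ := h1
  refine ⟨C, hC, fun Q N M hQ hN a => le_trans (Finset.sum_le_sum fun r hr => ?_)
    (h Q N M hQ hN a)⟩
  have : NeZero r := ⟨by have := (Finset.mem_Icc.mp hr).1; omega⟩
  exact h2 r M N a
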