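import Pool.Agent.H20.MT.Stmts

/-!
# Project MTA, module LSA: the additive large sieve at Farey fractions
-/

set_option autoImplicit false

open Finset

namespace MTA.LSAaux

/-- different reduced fractions in `[0,1)` are separated modulo one -/
theorem sep {r b r' b' Q : ℕ} (hr : 1 ≤ r) (hr' : 1 ≤ r') (hrQ : r ≤ Q) (hrQ' : r' ≤ Q)
    (hb : b < r) (hb' : b' < r') (hc : b.Coprime r) (hc' : b'.Coprime r')
    (hne : (r, b) ≠ (r', b')) (m : ℤ) :
    1 / (Q : ℝ) ^ 2 ≤ |(b : ℝ) / r - (b' : ℝ) / r' - m| := by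
  have hr0 : (0 : ℝ) < r := by exact_mod_cast hr
  have hr0' : (0 : ℝ) < r' := by exact_mod_cast hr'
  have hQ0 : (0 : ℝ) < Q := lt_of_lt_of_le hr0 (by exact_mod_cast hrQ)
  have e : (b : ℝ) / r - (b' : ℝ) / r' - m =
      (((b : ℤ) * r' - b' * r - m * r * r' : ℤ) : ℝ) / (r * r') := by
    push_cast
    field_simp
  rw [e, abs_div, abs_of_pos (mul_pos hr0 hr0')]
  have hnz : ((b : ℤ) * r' - b' * r - m * r * r' : ℤ) ≠ 0 := by
    intro h
    -- the fractions are equal modulo one, hence equal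
    have hm : m = 0 := by
      have h1 : (b : ℤ) * r' - b' * r = m * (r * r') := by linarith
      have hrr : (0 : ℤ) < (r : ℤ) * r' := by positivity
      have h2 : (b : ℤ) * r' - b' * r < r * r' := by
        have : (b : ℤ) * r' < r * r' := by
          have : (b : ℤ) < r := by exact_mod_cast hb
          have : (0 : ℤ) < r' := by exact_mod_cast hr'
          nlinarith
        have : (0 : ℤ) ≤ (b' : ℤ) * r := by positivity
        linarith
      have h3 : -((r : ℤ) * r') < (b : ℤ) * r' - b' * r := by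
        have : (b' : ℤ) * r < r' * r := by
          have : (b' : ℤ) < r' := by exact_mod_cast hb'
          have : (0 : ℤ) < r := by exact_mod_cast hr
          nlinarith
        have : (0 : ℤ) ≤ (b : ℤ) * r' := by positivity
        linarith
      rw [h1] at h2 h3
      have h4 : m < 1 := by
        by_contra h5
        push Not at h5
        nlinarith
      have h5 : -1 < m := by
        by_contra h5
        push Not at h5
        nlinarith
      omega
    rw [hm] at h
    have h1 : b * r' = b' * r := by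
      have : (b : ℤ) * r' = b' * r := by linarith
      exact_mod_cast this
    have h2 : r ∣ r' := by
      have : r ∣ b * r' := by rw [h1]; exact Dvd.intro_left _ rfl
      exact (Nat.Coprime.dvd_of_dvd_mul_left hc.symm this)
    have h3 : r' ∣ r := by
      have : r' ∣ b' * r := by rw [← h1]; exact Dvd.intro_left _ rfl
      exact (Nat.Coprime.dvd_of_dvd_mul_left hc'.symm this)
    have h4 : r = r' := Nat.dvd_antisymm h2 h3
    subst h4
    have h5 : b = b' := Nat.eq_of_mul_eq_mul_right hr h1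
    exact hne (by rw [h5])
  have h1 : (1 : ℝ) ≤ |(((b : ℤ) * r' - b' * r - m * r * r' : ℤ) : ℝ)| := by
    rw [← Int.cast_abs]
    exact_mod_cast Int.one_le_abs hnz
  rw [div_le_div_iff₀ (by positivity) (by positivity)]
  have h2 : (r : ℝ) * r' ≤ (Q : ℝ) ^ 2 := by
    have e1 : (r : ℝ) ≤ Q := by exact_mod_cast hrQ
    have e2 : (r' : ℝ) ≤ Q := by exact_mod_cast hrQ'
    nlinarith
  nlinarith [sq_nonneg (Q : ℝ)]

end MTA.LSAaux

open MTA MTA.LSAaux in
theorem MTA.LSA (h1 : MTA.S_LSG) : MTA.S_LSA := by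
  obtain ⟨C, hC, h⟩ := h1
  refine ⟨C, hC, fun Q N M hQ hN a => ?_⟩
  set I : Finset (Σ _ : ℕ, ℕ) := (Icc 1 Q).sigma (fun r => (range r).filter (fun b => b.Coprime r))
    with hI
  have hmem : ∀ j : ↥I, 1 ≤ (j : Σ _ : ℕ, ℕ).1 ∧ (j : Σ _ : ℕ, ℕ).1 ≤ Q ∧
      (j : Σ _ : ℕ, ℕ).2 < (j : Σ _ : ℕ, ℕ).1 ∧ ((j : Σ _ : ℕ, ℕ).2).Coprime (j : Σ _ : ℕ, ℕ).1 := by
    intro j
    have : (j : Σ _ : ℕ, ℕ) ∈ (Icc 1 Q).sigma (fun r => (range r).filter (fun b => b.Coprime r)) :=
      j.2
    rw [Finset.mem_sigma, Finset.mem_Icc, Finset.mem_filter, Finset.mem_range] at this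
    exact ⟨this.1.1, this.1.2, this.2.1, this.2.2⟩
  have hQ0 : (0 : ℝ) < (Q : ℝ) ^ 2 := by
    have : (0 : ℝ) < Q := by exact_mod_cast hQ
    positivity
  have hQ1 : (1 : ℝ) ≤ (Q : ℝ) ^ 2 := by
    have : (1 : ℝ) ≤ Q := by exact_mod_cast hQ
    nlinarith
  have hkey := h (↥I) (fun j => ((j : Σ _ : ℕ, ℕ).2 : ℝ) / (j : Σ _ : ℕ, ℕ).1) (1 / (Q : ℝ) ^ 2)
    (by positivity) (by rw [div_le_one hQ0]; exact hQ1) (by
      intro i j hij m
      obtain ⟨i1, i2, i3, i4⟩ := hmem i
      obtain ⟨j1, j2, j3, j4⟩ := hmem j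
      apply sep i1 j1 i2 j2 i3 j3 i4 j4
      intro he
      apply hij
      apply Subtype.ext
      rw [Prod.mk.injEq] at he
      rcases i with ⟨⟨i1, i2⟩, hi⟩
      rcases j with ⟨⟨j1, j2⟩, hj⟩
      simp only at he
      obtain ⟨rfl, rfl⟩ := he
      rfl) N M hN a
  rw [one_div_one_div] at hkey
  refine le_trans (le_of_eq ?_) hkey
  rw [← Finset.sum_sigma (Icc 1 Q) (fun r => (range r).filter (fun b => b.Coprime r))
    (fun p => ‖∑ n ∈ Ioc M (M + N), a n * Complex.exp (2 * Real.pi * Complex.I * n * p.2 / p.1)‖ ^ 2),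
    ← hI]
  rw [← Finset.sum_coe_sort I]
  refine Finset.sum_congr rfl fun j _ => ?_
  congr 2
  refine Finset.sum_congr rfl fun k _ => ?_
  congr 2
  push_cast
  ring
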