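import Pool.Agent.H20.MT.Stmts

/-!
# Project MTA, module TIB: the large sieve for a product of two sums
-/

set_option autoImplicit false

open Finset

namespace MTA.TIBaux

theorem cs {L A B : ℝ} (hL : 0 ≤ L) (hA : 0 ≤ A) (hB : 0 ≤ B)
    (h : ∀ t : ℝ, 0 < t → 2 * L * t ≤ A * (t * t) + B) : L ≤ Real.sqrt (A * B) := by
  have h1 : ∀ x : ℝ, 0 ≤ A * (x * x) + (-(2 * L)) * x + B := by
    intro x
    by_cases hx : 0 < x
    · have := h x hx
      linarith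
    · have h2 : 0 ≤ A * (x * x) := mul_nonneg hA (mul_self_nonneg x)
      have h3 : 0 ≤ L * (-x) := mul_nonneg hL (by linarith)
      nlinarith
  have h2 := discrim_le_zero h1
  unfold discrim at h2
  apply Real.le_sqrt_of_sq_le
  nlinarith

theorem prs_le {r : ℕ} {F G : DirichletCharacter ℂ r → ℝ} (h : ∀ χ, F χ ≤ G χ) :
    prs r F ≤ prs r G := by
  unfold prs
  refine Finset.sum_le_sum fun χ _ => ?_
  split_ifs
  · exact h χ
  · exact le_rfl

theorem prs_nonneg {r : ℕ} {F : DirichletCharacter ℂ r → ℝ} (h : ∀ χ, 0 ≤ F χ) :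
    0 ≤ prs r F := by
  unfold prs
  refine Finset.sum_nonneg fun χ _ => ?_
  split_ifs
  · exact h χ
  · exact le_rfl

theorem prs_lin {r : ℕ} (F G : DirichletCharacter ℂ r → ℝ) (s t : ℝ) :
    prs r (fun χ => s * F χ + t * G χ) = s * prs r F + t * prs r G := by
  unfold prs
  rw [Finset.mul_sum, Finset.mul_sum, ← Finset.sum_add_distrib]
  refine Finset.sum_congr rfl fun χ _ => ?_
  split_ifs <;> ring

end MTA.TIBaux

open MTA MTA.TIBaux in
theorem MTA.TIB (h1 : MTA.S_LS) : MTA.S_TIB := by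
  obtain ⟨C, hC, h⟩ := h1
  refine ⟨C, hC, fun Q M N hQ hM hN a b => ?_⟩
  have hIoc : Ioc M (2 * M) = Ioc M (M + M) := by rw [two_mul]
  have hIcc : Icc 1 N = Ioc 0 (0 + N) := by
    ext n; simp only [Finset.mem_Icc, Finset.mem_Ioc]; omega
  have ha := h Q M M hQ hM a
  have hb := h Q N 0 hQ hN b
  rw [← hIoc] at ha
  rw [← hIcc] at hb
  set Sa : ℝ := ∑ m ∈ Ioc M (2 * M), ‖a m‖ ^ 2 with hSa
  set Sb : ℝ := ∑ n ∈ Icc 1 N, ‖b n‖ ^ 2 with hSb
  have hSa0 : 0 ≤ Sa := Finset.sum_nonneg fun m _ => by positivity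
  have hSb0 : 0 ≤ Sb := Finset.sum_nonneg fun m _ => by positivity
  have hcoef : ∀ r : ℕ, 0 ≤ (r : ℝ) / r.totient := fun r => by positivity
  have hA0 : 0 ≤ C * ((M : ℝ) + Q ^ 2) * Sa := by positivity
  have hB0 : 0 ≤ C * ((N : ℝ) + Q ^ 2) * Sb := by positivity
  have hkey : ∑ r ∈ Icc 1 Q, (r : ℝ) / r.totient * prs r (fun χ =>
      ‖∑ m ∈ Ioc M (2 * M), a m * χ m‖ * ‖∑ n ∈ Icc 1 N, b n * χ n‖) ≤
      Real.sqrt ((C * ((M : ℝ) + Q ^ 2) * Sa) * (C * ((N : ℝ) + Q ^ 2) * Sb)) := by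
    apply cs ?_ hA0 hB0
    · intro t ht
      have e1 : ∀ r ∈ Icc 1 Q, (r : ℝ) / r.totient * prs r (fun χ =>
          ‖∑ m ∈ Ioc M (2 * M), a m * χ m‖ * ‖∑ n ∈ Icc 1 N, b n * χ n‖) * (2 * t) ≤
          (t * t) * ((r : ℝ) / r.totient * prs r (fun χ => ‖∑ m ∈ Ioc M (2 * M), a m * χ m‖ ^ 2)) +
          (r : ℝ) / r.totient * prs r (fun χ => ‖∑ n ∈ Icc 1 N, b n * χ n‖ ^ 2) := by
        intro r _
        have e2 : prs r (fun χ =>
            ‖∑ m ∈ Ioc M (2 * M), a m * χ m‖ * ‖∑ n ∈ Icc 1 N, b n * χ n‖) * (2 * t) ≤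
            (t * t) * prs r (fun χ => ‖∑ m ∈ Ioc M (2 * M), a m * χ m‖ ^ 2) +
            1 * prs r (fun χ => ‖∑ n ∈ Icc 1 N, b n * χ n‖ ^ 2) := by
          rw [← prs_lin]
          have e3 : prs r (fun χ =>
              ‖∑ m ∈ Ioc M (2 * M), a m * χ m‖ * ‖∑ n ∈ Icc 1 N, b n * χ n‖) * (2 * t) =
              (2 * t) * prs r (fun χ =>
              ‖∑ m ∈ Ioc M (2 * M), a m * χ m‖ * ‖∑ n ∈ Icc 1 N, b n * χ n‖) +
              0 * prs r (fun χ => ‖∑ n ∈ Icc 1 N, b n * χ n‖) := by ring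
          rw [e3, ← prs_lin]
          apply prs_le
          intro χ
          nlinarith [sq_nonneg (t * ‖∑ m ∈ Ioc M (2 * M), a m * χ m‖ -
            ‖∑ n ∈ Icc 1 N, b n * χ n‖)]
        have := mul_le_mul_of_nonneg_left e2 (hcoef r)
        nlinarith
      have e4 := Finset.sum_le_sum e1
      rw [← Finset.sum_mul, Finset.sum_add_distrib, ← Finset.mul_sum] at e4
      have e5 := mul_le_mul_of_nonneg_left ha (mul_self_nonneg t)
      nlinarith
    · exact Finset.sum_nonneg fun r _ => mul_nonneg (hcoef r) (prs_nonneg fun χ => by positivity)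
  refine hkey.trans (le_of_eq ?_)
  have e6 : (C * ((M : ℝ) + Q ^ 2) * Sa) * (C * ((N : ℝ) + Q ^ 2) * Sb) =
      C ^ 2 * (((M : ℝ) + Q ^ 2) * (N + Q ^ 2) * Sa * Sb) := by ring
  rw [e6, Real.sqrt_mul (by positivity), Real.sqrt_sq hC.le]
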