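import Pool.Agent.H20.MT.Stmts

/-!
# Project MTA, module CLS: residue classes given by configurations
-/

set_option autoImplicit false

open Finset

namespace MTA.CLSaux
open MTA

theorem cls_ind {n w0 : ℕ} {c : Fin n → ℕ} {W b : ℕ} (h1 : S_EXC) (hT : TupleOK n w0 c W b)
    {Y : ℝ} (F : Cfg (PP W Y) n) (S : Finset ↥(PP W Y)) :
    ∃ a : ℕ, ∀ t, (t ≡ b [MOD W] ∧ ∀ p ∈ S, ∀ k, F p = some k → (p : ℕ) ∣ hh c k t) ↔
      t ≡ a [MOD W * ∏ p ∈ S, if (F p).isSome then (p : ℕ) else 1] := by
  classical
  induction S using Finset.induction_on with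
  | empty => exact ⟨b, fun t => by simp⟩
  | insert q S hq ih =>
    obtain ⟨a, ha⟩ := ih
    have hqP : (q : ℕ) ∈ (Icc 2 ⌊Y⌋₊).filter (fun p => p.Prime ∧ ¬ p ∣ W) := q.2
    rw [Finset.mem_filter] at hqP
    obtain ⟨-, hqp, hqW⟩ := hqP
    rw [Finset.prod_insert hq]
    rcases hF : F q with _ | k
    · refine ⟨a, fun t => ?_⟩
      have : (if (none : Option (Fin (n + 1))).isSome then (q : ℕ) else 1) = 1 := by simp
      rw [this, one_mul, ← ha t]
      constructor
      · rintro ⟨h2, h3⟩
        exact ⟨h2, fun p hp k hk => h3 p (Finset.mem_insert_of_mem hp) k hk⟩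
      · rintro ⟨h2, h3⟩
        refine ⟨h2, fun p hp k hk => ?_⟩
        rcases Finset.mem_insert.mp hp with rfl | hp
        · rw [hF] at hk; cases hk
        · exact h3 p hp k hk
    · obtain ⟨r, hr, -⟩ := h1 n w0 c W b hT q hqp hqW k
      set m := ∏ p ∈ S, if (F p).isSome then (p : ℕ) else 1 with hm
      have hcop : (W * m).Coprime (q : ℕ) := by
        apply Nat.Coprime.mul_left
        · exact ((Nat.Prime.coprime_iff_not_dvd hqp).mpr hqW).symm
        · rw [hm]
          apply Nat.Coprime.prod_left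
          intro p hp
          split_ifs
          · have hpP : (p : ℕ) ∈ (Icc 2 ⌊Y⌋₊).filter (fun p => p.Prime ∧ ¬ p ∣ W) := p.2
            rw [Finset.mem_filter] at hpP
            rw [Nat.coprime_primes hpP.2.1 hqp]
            intro h
            apply hq
            have : p = q := Subtype.ext h
            rwa [← this]
          · exact Nat.coprime_one_left _
      refine ⟨Nat.chineseRemainder hcop a r, fun t => ?_⟩
      have hprop := (Nat.chineseRemainder hcop a r).2
      have e1 : (if (some k).isSome then (q : ℕ) else 1) = q := by simp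
      rw [e1]
      have e2 : W * ((q : ℕ) * m) = (W * m) * q := by ring
      rw [e2, ← Nat.modEq_and_modEq_iff_modEq_mul hcop]
      constructor
      · rintro ⟨h2, h3⟩
        refine ⟨((ha t).mp ⟨h2, fun p hp k hk => h3 p (Finset.mem_insert_of_mem hp) k hk⟩).trans
          hprop.1.symm, ?_⟩
        exact ((hr t).mp (h3 q (Finset.mem_insert_self _ _) k hF)).trans hprop.2.symm
      · rintro ⟨h2, h3⟩
        obtain ⟨h4, h5⟩ := (ha t).mpr (h2.trans hprop.1)
        refine ⟨h4, fun p hp j hj => ?_⟩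
        rcases Finset.mem_insert.mp hp with rfl | hp
        · rw [hF] at hj
          cases hj
          exact (hr t).mpr (h3.trans hprop.2)
        · exact h5 p hp j hj

end MTA.CLSaux

open MTA MTA.CLSaux in
theorem MTA.CLS (h1 : MTA.S_EXC) : MTA.S_CLS := by
  intro n w0 c W b hT Y F
  obtain ⟨a, ha⟩ := cls_ind h1 hT F Finset.univ
  have ha' : ∀ t, (t ≡ b [MOD W] ∧ Dv c F t) ↔ t ≡ a [MOD W * qq F] := by
    intro t
    have := ha t
    unfold Dv qq
    rw [← this]
    constructor
    · rintro ⟨h2, h3⟩; exact ⟨h2, fun p _ k hk => h3 p k hk⟩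
    · rintro ⟨h2, h3⟩; exact ⟨h2, fun p k hk => h3 p (Finset.mem_univ _) k hk⟩
  refine ⟨a, ha', fun k hk => ?_⟩
  obtain ⟨h2, h3⟩ := (ha' a).mpr (Nat.ModEq.refl a)
  apply Nat.Coprime.mul_right
  · have hgen : ∀ (k : Fin (n + 1)), (hh c k b).Coprime W := by
      intro k
      refine Fin.cases ?_ (fun i => ?_) k
      · exact hT.cop0
      · exact hT.copk i
    have hmod : hh c k a ≡ hh c k b [MOD W] := by
      revert k
      intro k
      refine Fin.cases ?_ (fun i => ?_) k
      · intro _; exact h2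
      · intro _
        exact (h2.mul_left (c i)).add_right 1
    have := hmod.gcd_eq
    rw [Nat.Coprime, this]
    exact hgen k
  · unfold qq
    apply Nat.Coprime.prod_right
    intro p _
    rcases hF : F p with _ | l
    · simp
    · have hpP : (p : ℕ) ∈ (Icc 2 ⌊Y⌋₊).filter (fun p => p.Prime ∧ ¬ p ∣ W) := p.2
      rw [Finset.mem_filter] at hpP
      obtain ⟨-, hpp, hpW⟩ := hpP
      obtain ⟨r, hr, hr'⟩ := h1 n w0 c W b hT p hpp hpW l
      have h4 : (p : ℕ) ∣ hh c l a := h3 p l hF
      have h5 : ¬ (p : ℕ) ∣ hh c k a := by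
        apply hr' k ?_ a ((hr a).mp h4)
        intro h
        exact hk p (by rw [hF, h])
      simp only [Option.isSome_some, if_true]
      exact ((Nat.Prime.coprime_iff_not_dvd hpp).mpr h5).symm
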