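import Pool.Agent.H20.MT.Stmts

/-!
# Project MTA, module EXC: the roots of the forms are different modulo primes outside `W`
-/

set_option autoImplicit false

open Finset

theorem MTA.EXC : MTA.S_EXC := by
  intro n w0 c W b hT p hp hpW k
  have hp1 : ¬ p ∣ 1 := hp.one_lt.ne' ∘ Nat.dvd_one.mp
  have hcop : ∀ i, p.Coprime (c i) := fun i =>
    (Nat.Prime.coprime_iff_not_dvd hp).mpr fun h => hpW (hT.cW i p hp h)
  have hdiff : ∀ i j, i < j → ∀ t, p ∣ c i * t + 1 → p ∣ c j * t + 1 → False := by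
    intro i j hij t h1 h2
    have hlt : c i < c j := hT.mono hij
    have h3 : p ∣ (c j - c i) * t := by
      have : (c j - c i) * t = (c j * t + 1) - (c i * t + 1) := by
        rw [Nat.sub_mul]; omega
      rw [this]
      exact Nat.dvd_sub h2 h1
    rcases (Nat.Prime.dvd_mul hp).mp h3 with h4 | h4
    · exact hpW (hT.diff i j hij p hp h4)
    · have h5 : p ∣ c i * t := Dvd.dvd.mul_left h4 _
      exact hp1 ((Nat.dvd_add_right h5).mp h1)
  have h0 : ∀ i t, p ∣ t → p ∣ c i * t + 1 → False := fun i t h1 h2 =>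
    hp1 ((Nat.dvd_add_right (Dvd.dvd.mul_left h1 _)).mp h2)
  refine Fin.cases ?_ (fun i => ?_) k
  · refine ⟨0, fun t => ?_, ?_⟩
    · show p ∣ t ↔ _
      exact Nat.modEq_zero_iff_dvd.symm
    · intro l hl t ht
      have ht' : p ∣ t := Nat.modEq_zero_iff_dvd.mp ht
      obtain ⟨j, rfl⟩ := Fin.exists_succ_eq.mpr hl
      show ¬ p ∣ c j * t + 1
      exact fun h => h0 j t ht' h
  · obtain ⟨a, ha⟩ : ∃ a : ℕ, p ∣ c i * a + 1 := by
      obtain ⟨u, -, hu⟩ := Nat.exists_mul_mod_eq_one_of_coprime (hcop i).symm hp.one_lt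
      refine ⟨u * (p - 1), ?_⟩
      have h1 : c i * u ≡ 1 [MOD p] := by
        unfold Nat.ModEq
        rw [hu, Nat.mod_eq_of_lt hp.one_lt]
      have h2 : c i * (u * (p - 1)) + 1 ≡ 1 * (p - 1) + 1 [MOD p] := by
        have := (h1.mul_right (p - 1)).add_right 1
        rwa [mul_assoc] at this
      rw [one_mul, Nat.sub_add_cancel hp.one_lt.le] at h2
      exact (Nat.modEq_zero_iff_dvd.mp (h2.trans (by simp [Nat.ModEq])))
    have hiff : ∀ t, p ∣ c i * t + 1 ↔ t ≡ a [MOD p] := by
      intro t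
      constructor
      · intro h
        have h1 : c i * t + 1 ≡ c i * a + 1 [MOD p] :=
          (Nat.modEq_zero_iff_dvd.mpr h).trans (Nat.modEq_zero_iff_dvd.mpr ha).symm
        have h2 : c i * t ≡ c i * a [MOD p] := Nat.ModEq.add_right_cancel' 1 h1
        exact Nat.ModEq.cancel_left_of_coprime (hcop i) h2
      · intro h
        have h1 : c i * t + 1 ≡ c i * a + 1 [MOD p] := (h.mul_left (c i)).add_right 1
        exact Nat.modEq_zero_iff_dvd.mp (h1.trans (Nat.modEq_zero_iff_dvd.mpr ha))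
    refine ⟨a, hiff, ?_⟩
    intro l
    refine Fin.cases ?_ (fun j => ?_) l
    · intro _ t ht
      show ¬ p ∣ t
      exact fun h => h0 i t h ((hiff t).mpr ht)
    · intro hl t ht
      show ¬ p ∣ c j * t + 1
      intro h
      have hij : j ≠ i := fun h => hl (by rw [h])
      rcases lt_or_gt_of_ne hij with h1 | h1
      · exact hdiff j i h1 t h ((hiff t).mpr ht)
      · exact hdiff i j h1 t ((hiff t).mpr ht) h
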